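import Pool.Agent.X187.WC.Psi

open Filter Topology
open scoped ContDiff

namespace Pool.Agent.X187.WC

lemma iter_Psi_0 (n : ℕ) (v : E3) : (Psi^[n] v) 0 = 2 ^ n * v 0 := by rw [iter_Psi]; simp

lemma iter_Psi_1 (n : ℕ) (v : E3) : (Psi^[n] v) 1 = v 1 / 2 ^ n := by rw [iter_Psi]; simp

lemma iter_Psi_2 (n : ℕ) (v : E3) : (Psi^[n] v) 2 =
    v 2 + ∑ i ∈ Finset.range n, G (2 ^ i * v 0) (v 1 / 2 ^ i) := by rw [iter_Psi]; simp

set_option maxHeartbeats 4000000 in
/-- The map is run-away. -/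
lemma run_away (L : Set E3) (hL : L ⊆ Om) (hLc : IsCompact L) :
    ∃ n : ℕ, Disjoint (Psi^[n] '' L) L := by
  rcases L.eq_empty_or_nonempty with rfl | hne
  · exact ⟨0, by simp⟩
  -- bounds
  obtain ⟨B, hB1, hB⟩ : ∃ B : ℝ, 1 ≤ B ∧ ∀ v ∈ L, ∀ i, |v i| ≤ B := by
    obtain ⟨B, hB⟩ := hLc.isBounded.exists_norm_le
    refine ⟨max B 1, le_max_right _ _, fun v hv i => ?_⟩
    have h1 := PiLp.norm_apply_le v i
    rw [Real.norm_eq_abs] at h1
    exact h1.trans ((hB v hv).trans (le_max_left _ _))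
  obtain ⟨ρ, hρ0, hρ1, hρ⟩ : ∃ ρ : ℝ, 0 < ρ ∧ ρ ≤ 1 ∧ ∀ v ∈ L, ρ ≤ |v 0| ∨ ρ ≤ |v 1| := by
    have hc : ContinuousOn (fun v : E3 => max |v 0| |v 1|) L := by fun_prop
    obtain ⟨v₀, hv₀, hmin⟩ := hLc.exists_isMinOn hne hc
    have hpos : 0 < max |v₀ 0| |v₀ 1| := by
      by_contra h
      rw [not_lt] at h
      apply hL hv₀
      have h0 : |v₀ 0| ≤ 0 := (le_max_left _ _).trans h
      have h1 : |v₀ 1| ≤ 0 := (le_max_right _ _).trans h
      rw [abs_nonpos_iff] at h0 h1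
      rw [h0, h1]
    refine ⟨min (max |v₀ 0| |v₀ 1|) 1, lt_min hpos one_pos, min_le_right _ _, fun v hv => ?_⟩
    have h1 : max |v₀ 0| |v₀ 1| ≤ max |v 0| |v 1| := hmin hv
    have h2 := (min_le_left (max |v₀ 0| |v₀ 1|) 1).trans h1
    exact le_max_iff.1 h2
  set C1 := Real.log (1 + 1 / (ρ ^ 2) ^ 2) + 2 * Real.log (B ^ 2) with hC1
  -- choice of k
  have hlog2 : 0 < Real.log 2 := Real.log_pos (by norm_num)
  obtain ⟨k, hk⟩ := exists_nat_gt (max (max (C1 + 2 * Real.log 2) (4 * B + 1)) (8 * B / ρ + 1))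
  have hk1 : C1 + 2 * Real.log 2 < k := lt_of_le_of_lt ((le_max_left _ _).trans (le_max_left _ _)) hk
  have hk2 : 4 * B + 1 < k := lt_of_le_of_lt ((le_max_right _ _).trans (le_max_left _ _)) hk
  have hk3 : 8 * B / ρ + 1 < k := lt_of_le_of_lt (le_max_right _ _) hk
  have hk0 : (1 : ℝ) < k := by linarith
  have hk0' : 0 < k := by
    have : (0 : ℝ) < k := by linarith
    exact_mod_cast this
  have hπ := Real.pi_gt_three
  set N := ⌊(2 * Real.pi * k) ^ 2 / (2 * Real.log 2)⌋₊ with hN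
  have hN1 : |2 * (N : ℝ) * Real.log 2 - (2 * Real.pi * k) ^ 2| ≤ 2 * Real.log 2 := by
    have h1 : (N : ℝ) ≤ (2 * Real.pi * k) ^ 2 / (2 * Real.log 2) := Nat.floor_le (by positivity)
    have h2 : (2 * Real.pi * k) ^ 2 / (2 * Real.log 2) < N + 1 := Nat.lt_floor_add_one _
    rw [le_div_iff₀ (by positivity)] at h1
    rw [div_lt_iff₀ (by positivity)] at h2
    rw [abs_le]
    constructor <;> linarith
  have hNk : (k : ℝ) ≤ N := by
    have h2 := (abs_le.1 hN1).1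
    have h3 : Real.log 2 < 1 := by
      have := Real.log_two_lt_d9
      linarith
    have h4 : (k : ℝ) ≤ k ^ 2 := by nlinarith
    have h5 : 36 * (k : ℝ) ^ 2 ≤ (2 * Real.pi * k) ^ 2 := by
      have h6 : (6 : ℝ) * k ≤ 2 * Real.pi * k := by nlinarith
      have h7 : (6 * (k : ℝ)) ^ 2 ≤ (2 * Real.pi * k) ^ 2 := by gcongr
      nlinarith
    have h8 : 36 * (k : ℝ) - 2 ≤ 2 * (N : ℝ) * Real.log 2 := by nlinarith
    have hN0 : (0 : ℝ) ≤ N := Nat.cast_nonneg _
    have h9 : 2 * (N : ℝ) * Real.log 2 ≤ 2 * N := by nlinarith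
    linarith
  have hpow : 8 * B / ρ < 2 ^ N := by
    have h1 : (N : ℝ) < 2 ^ N := by exact_mod_cast Nat.lt_two_pow_self
    linarith
  have hpow' : 8 * B < 2 ^ N * ρ := by rwa [div_lt_iff₀ hρ0] at hpow
  have h2N : (0 : ℝ) < 2 ^ N := by positivity
  refine ⟨N, ?_⟩
  rw [Set.disjoint_left]
  rintro _ ⟨v, hv, rfl⟩ hw
  set w := Psi^[N] v with hwdef
  have w0 : w 0 = 2 ^ N * v 0 := iter_Psi_0 N v
  have w1 : w 1 = v 1 / 2 ^ N := iter_Psi_1 N v
  have w2 : w 2 = v 2 + ∑ i ∈ Finset.range N, G (2 ^ i * v 0) (v 1 / 2 ^ i) := iter_Psi_2 N v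
  have a0 : |w 0| = 2 ^ N * |v 0| := by rw [w0, abs_mul, abs_of_pos h2N]
  have a1 : |w 1| = |v 1| / 2 ^ N := by rw [w1, abs_div, abs_of_pos h2N]
  have b0 : 2 ^ N * |v 0| ≤ B := by rw [← a0]; exact hB w hw 0
  have b1 := hB v hv 1
  have b2 := hB v hv 2
  have b3 := hB w hw 2
  have v1 : ρ ≤ |v 1| := by
    rcases hρ v hv with h | h
    · exfalso
      have : 2 ^ N * ρ ≤ 2 ^ N * |v 0| := by gcongr
      linarith
    · exact h
  have v0 : ρ ≤ 2 ^ N * |v 0| := by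
    rcases hρ w hw with h | h
    · rwa [a0] at h
    · exfalso
      rw [a1, le_div_iff₀ h2N] at h
      linarith
  have hv0 : v 0 ≠ 0 := by
    intro h
    rw [h, abs_zero, mul_zero] at v0
    linarith
  have hN0 : 0 < N := by
    have : (0 : ℝ) < N := by linarith
    exact_mod_cast this
  obtain ⟨n, hn⟩ : ∃ n, N = n + 1 := ⟨N - 1, by omega⟩
  have hx2 : 2 * |v 0| ≤ |v 1| := by
    have h1 : 2 ^ N * (2 * |v 0|) ≤ 2 ^ N * |v 1| := by
      calc 2 ^ N * (2 * |v 0|) = 2 * (2 ^ N * |v 0|) := by ring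
        _ ≤ 2 * B := by linarith
        _ ≤ 2 ^ N * ρ := by linarith
        _ ≤ 2 ^ N * |v 1| := by gcongr
    exact le_of_mul_le_mul_left h1 h2N
  have hshift : R (v 0 * v 1) ≤ ∑ i ∈ Finset.range N, G (2 ^ i * v 0) (v 1 / 2 ^ i) := by
    rw [hn]
    apply shift_lower hv0 hx2
    have h2n : (0 : ℝ) < 2 ^ n := by positivity
    have hN2 : (2 : ℝ) ^ N = 2 * 2 ^ n := by rw [hn, pow_succ]; ring
    rw [hN2] at v0 hpow'
    rw [mul_div_assoc', div_le_iff₀ h2n]
    have h1 : 2 * |v 1| ≤ 2 * B := by linarith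
    have h2 : (2 * 2 ^ n) * (2 * B) ≤ (2 * 2 ^ n) * (2 ^ n * |v 0| * 2 ^ n) := by
      have h3 : ρ / 2 ≤ 2 ^ n * |v 0| := by linarith
      calc (2 * 2 ^ n) * (2 * B) ≤ (2 * 2 ^ n) * (ρ / 2 * 2 ^ n) := by
            have : 2 * B ≤ ρ / 2 * 2 ^ n := by nlinarith
            gcongr
        _ ≤ _ := by gcongr
    have h3 := le_of_mul_le_mul_left h2 (by positivity)
    linarith
  have hc1 : ρ ^ 2 / 2 ^ N ≤ |v 0 * v 1| := by
    rw [div_le_iff₀ h2N, abs_mul]
    calc ρ ^ 2 = ρ * ρ := by ring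
      _ ≤ (2 ^ N * |v 0|) * |v 1| := by gcongr
      _ = _ := by ring
  have hc2 : |v 0 * v 1| ≤ B ^ 2 / 2 ^ N := by
    rw [le_div_iff₀ h2N, abs_mul]
    calc |v 0| * |v 1| * 2 ^ N = (2 ^ N * |v 0|) * |v 1| := by ring
      _ ≤ B * B := by gcongr
      _ = _ := by ring
  have hlog := log_est (n := N) (lo := ρ ^ 2) (hi := B ^ 2) (by positivity) (by nlinarith)
    (by nlinarith) hc1 hc2
  have htot : |Real.log (1 + 1 / (v 0 * v 1) ^ 2) - (2 * Real.pi * k) ^ 2| ≤ C1 + 2 * Real.log 2 := by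
    have h1 : Real.log (1 + 1 / (v 0 * v 1) ^ 2) - (2 * Real.pi * k) ^ 2 =
        (Real.log (1 + 1 / (v 0 * v 1) ^ 2) - 2 * N * Real.log 2) +
        (2 * (N : ℝ) * Real.log 2 - (2 * Real.pi * k) ^ 2) := by ring
    rw [h1]
    exact (abs_add_le _ _).trans (add_le_add hlog hN1)
  have hRl := R_large htot hk0' (by nlinarith)
  have h3 := (abs_le.1 b3).2
  have h4 := (abs_le.1 b2).1
  rw [w2] at h3
  nlinarith

/-- special starting points -/
noncomputable def qn (n : ℕ) : E3 := !₂[1 / 2 ^ n, 1, 0]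

/-- limit of the starting points -/
noncomputable def q0 : E3 := !₂[0, 1, 0]

/-- limit of the end points -/
noncomputable def p0 : E3 := !₂[1, 0, 0]

lemma q0_mem : q0 ∈ Om := by simp [q0, Om]

lemma p0_mem : p0 ∈ Om := by simp [p0, Om]

lemma qn_mem (n : ℕ) : qn n ∈ Om := by simp [qn, Om]

lemma tendsto_vec {a b c : ℕ → ℝ} {a' b' c' : ℝ} (ha : Tendsto a atTop (𝓝 a'))
    (hb : Tendsto b atTop (𝓝 b')) (hc : Tendsto c atTop (𝓝 c')) :
    Tendsto (fun k => (!₂[a k, b k, c k] : E3)) atTop (𝓝 !₂[a', b', c']) := by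
  have h1 : Continuous fun p : ℝ × ℝ × ℝ => (!₂[p.1, p.2.1, p.2.2] : E3) := by fun_prop
  have h2 := (h1.tendsto (a', b', c')).comp (ha.prodMk_nhds (hb.prodMk_nhds hc))
  exact h2

set_option maxHeartbeats 4000000 in
/-- Recurrence along multiples of `m`. -/
lemma recur (m : ℕ) (hm : 1 ≤ m) : ∃ l : ℕ → ℕ,
    Tendsto (fun k => qn (m * l k)) atTop (𝓝 q0) ∧
    Tendsto (fun k => Psi^[m * l k] (qn (m * l k))) atTop (𝓝 p0) := by
  have hlog2 : 0 < Real.log 2 := Real.log_pos (by norm_num)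
  have hm0 : (0 : ℝ) < m := by exact_mod_cast hm
  have hπ := Real.pi_gt_three
  set a : ℕ → ℝ := fun k => Real.pi * (2 * k + 1) with ha
  set l : ℕ → ℕ := fun k => ⌊(a k) ^ 2 / (2 * m * Real.log 2)⌋₊ with hl
  have ha0 : ∀ k, 0 < a k := fun k => by simp only [ha]; positivity
  have ha_top : Tendsto a atTop atTop := by
    simp only [ha]
    apply Tendsto.const_mul_atTop Real.pi_pos
    apply tendsto_atTop_add_const_right
    exact tendsto_natCast_atTop_atTop.const_mul_atTop (by norm_num)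
  have hl_top : Tendsto l atTop atTop := by
    simp only [hl]
    apply (tendsto_nat_floor_atTop).comp
    apply Tendsto.atTop_div_const (by positivity)
    exact (tendsto_pow_atTop (by norm_num)).comp ha_top
  have hml_top : Tendsto (fun k => m * l k) atTop atTop :=
    tendsto_atTop_mono (fun k => Nat.le_mul_of_pos_left _ (by omega)) hl_top
  have hpow : Tendsto (fun k => (1 : ℝ) / 2 ^ (m * l k)) atTop (𝓝 0) := by
    have h1 : Tendsto (fun n : ℕ => ((1 : ℝ) / 2) ^ n) atTop (𝓝 0) :=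
      tendsto_pow_atTop_nhds_zero_of_lt_one (by norm_num) (by norm_num)
    refine (h1.comp hml_top).congr fun k => ?_
    simp
  have hest : ∀ k, |Real.log (1 + 1 / ((1 : ℝ) / 2 ^ (m * l k)) ^ 2) - (a k) ^ 2| ≤
      Real.log 2 + 2 * m * Real.log 2 := by
    intro k
    have h1 := log_est (c := 1 / 2 ^ (m * l k)) (n := m * l k) (lo := 1) (hi := 1) one_pos le_rfl
      le_rfl (by rw [abs_of_pos (by positivity)]) (by rw [abs_of_pos (by positivity)])
    have h0 : Real.log (1 + 1 / (1:ℝ) ^ 2) + 2 * Real.log 1 = Real.log 2 := by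
      rw [Real.log_one]
      norm_num
    rw [h0] at h1
    have h2 : (l k : ℝ) ≤ (a k) ^ 2 / (2 * m * Real.log 2) := Nat.floor_le (by positivity)
    have h3 : (a k) ^ 2 / (2 * m * Real.log 2) < l k + 1 := Nat.lt_floor_add_one _
    rw [le_div_iff₀ (by positivity)] at h2
    rw [div_lt_iff₀ (by positivity)] at h3
    have h4 : |2 * ((m * l k : ℕ) : ℝ) * Real.log 2 - (a k) ^ 2| ≤ 2 * m * Real.log 2 := by
      rw [abs_le]
      push_cast
      constructor <;> nlinarith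
    have h5 : Real.log (1 + 1 / ((1 : ℝ) / 2 ^ (m * l k)) ^ 2) - (a k) ^ 2 =
        (Real.log (1 + 1 / ((1 : ℝ) / 2 ^ (m * l k)) ^ 2) - 2 * ((m * l k : ℕ) : ℝ) * Real.log 2) +
        (2 * ((m * l k : ℕ) : ℝ) * Real.log 2 - (a k) ^ 2) := by ring
    rw [h5]
    exact (abs_add_le _ _).trans (add_le_add h1 h4)
  set C := Real.log 2 + 2 * m * Real.log 2 with hC
  have hC0 : 0 < C := by positivity
  have hRlim : Tendsto (fun k => R (1 / 2 ^ (m * l k))) atTop (𝓝 0) := by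
    have h1 : ∀ᶠ k in atTop, R (1 / 2 ^ (m * l k)) ≤ 2 * C ^ 2 / a k := by
      have h2 := ha_top.eventually_ge_atTop (max C 1)
      filter_upwards [h2] with k hk
      have hkC : C ≤ a k := (le_max_left _ _).trans hk
      have hk1 : 1 ≤ a k := (le_max_right _ _).trans hk
      have h3 := R_small (hest k) (by
        change C ≤ (a k) ^ 2
        nlinarith)
      refine h3.trans (le_of_eq ?_)
      change 2 * a k * (C / a k) ^ 2 = 2 * C ^ 2 / a k
      have := (ha0 k).ne'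
      field_simp
    have h4 : Tendsto (fun k => 2 * C ^ 2 / a k) atTop (𝓝 0) := ha_top.const_div_atTop _
    exact squeeze_zero' (Eventually.of_forall fun k => R_nonneg _) h1 h4
  refine ⟨l, ?_, ?_⟩
  · exact tendsto_vec hpow tendsto_const_nhds tendsto_const_nhds
  · have h1 : ∀ k, Psi^[m * l k] (qn (m * l k)) = !₂[1, 1 / 2 ^ (m * l k),
        ∑ i ∈ Finset.range (m * l k), G (2 ^ i * (1 / 2 ^ (m * l k))) (1 / 2 ^ i)] := by
      intro k
      rw [iter_Psi]
      ext i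
      fin_cases i <;> simp [qn]
    simp_rw [h1]
    apply tendsto_vec tendsto_const_nhds hpow
    have h2 : Tendsto (fun k => 2 * R (1 / 2 ^ (m * l k))) atTop (𝓝 0) := by
      simpa using hRlim.const_mul 2
    exact squeeze_zero (fun k => Finset.sum_nonneg fun i _ => G_nonneg _ _)
      (fun k => shift_upper _) h2

end Pool.Agent.X187.WC
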