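import Mathlib

open Filter Topology
open scoped ContDiff

namespace Pool.Agent.X187.WC

/-- height function -/
noncomputable def R (c : ℝ) : ℝ :=
  √(Real.log (1 + 1 / c ^ 2)) * (1 + Real.cos √(Real.log (1 + 1 / c ^ 2)))

/-- localisation -/
noncomputable def tt (x y : ℝ) : ℝ := (x * y) ^ 2 / (x ^ 4 + y ^ 4)

/-- the shift function -/
noncomputable def G (x y : ℝ) : ℝ := Real.smoothTransition (10 * tt x y - 1) * R (x * y)

lemma R_nonneg (c : ℝ) : 0 ≤ R c := by
  unfold R
  have := Real.neg_one_le_cos √(Real.log (1 + 1 / c ^ 2))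
  apply mul_nonneg (Real.sqrt_nonneg _)
  linarith

lemma G_nonneg (x y : ℝ) : 0 ≤ G x y :=
  mul_nonneg (Real.smoothTransition.nonneg _) (R_nonneg _)

lemma quart_pos {x y : ℝ} (h : (x, y) ≠ (0, 0)) : 0 < x ^ 4 + y ^ 4 := by
  by_cases hx : x = 0
  · have hy : y ≠ 0 := by
      rintro rfl
      exact h (by rw [hx])
    positivity
  · positivity

lemma G_contDiffAt {p : ℝ × ℝ} (hp : p ≠ (0, 0)) :
    ContDiffAt ℝ ∞ (fun q : ℝ × ℝ => G q.1 q.2) p := by
  have h4 : p.1 ^ 4 + p.2 ^ 4 ≠ 0 := (quart_pos (x := p.1) (y := p.2) hp).ne'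
  have htt : ContDiffAt ℝ ∞ (fun q : ℝ × ℝ => tt q.1 q.2) p := by
    unfold tt
    exact ((contDiffAt_fst.mul contDiffAt_snd).pow 2).div
      ((contDiffAt_fst.pow 4).add (contDiffAt_snd.pow 4)) h4
  by_cases hc : p.1 * p.2 = 0
  · have h0 : tt p.1 p.2 < 1 / 10 := by
      unfold tt
      rw [hc]
      norm_num
    have h1 : ∀ᶠ q : ℝ × ℝ in 𝓝 p, tt q.1 q.2 < 1 / 10 := htt.continuousAt.eventually_lt_const h0
    have h2 : (fun q : ℝ × ℝ => G q.1 q.2) =ᶠ[𝓝 p] fun _ => 0 := by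
      filter_upwards [h1] with q hq
      unfold G
      rw [Real.smoothTransition.zero_of_nonpos (by linarith), zero_mul]
    exact contDiffAt_const.congr_of_eventuallyEq h2
  · unfold G
    apply ContDiffAt.mul
    · exact Real.smoothTransition.contDiff.contDiffAt.comp p ((contDiffAt_const.mul htt).sub contDiffAt_const)
    · have hc2 : (p.1 * p.2) ^ 2 ≠ 0 := pow_ne_zero _ hc
      have h1 : ContDiffAt ℝ ∞ (fun q : ℝ × ℝ => 1 + 1 / (q.1 * q.2) ^ 2) p := by
        exact contDiffAt_const.add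
          (ContDiffAt.div (f := fun _ : ℝ × ℝ => (1 : ℝ)) (g := fun q : ℝ × ℝ => (q.1 * q.2) ^ 2)
          contDiffAt_const ((contDiffAt_fst.mul contDiffAt_snd).pow 2) hc2)
      have h2 : (0 : ℝ) < 1 / (p.1 * p.2) ^ 2 := by positivity
      have h3 : ContDiffAt ℝ ∞ (fun q : ℝ × ℝ => Real.log (1 + 1 / (q.1 * q.2) ^ 2)) p :=
        h1.log (by positivity)
      have h4 : Real.log (1 + 1 / (p.1 * p.2) ^ 2) ≠ 0 := (Real.log_pos (by linarith)).ne'
      have h5 : ContDiffAt ℝ ∞ (fun q : ℝ × ℝ => √(Real.log (1 + 1 / (q.1 * q.2) ^ 2))) p :=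
        h3.sqrt h4
      unfold R
      exact h5.mul (contDiffAt_const.add h5.cos)

/-- upper bound near the bad values -/
lemma R_small {c : ℝ} {k : ℕ} {C : ℝ} (hC : |Real.log (1 + 1 / c ^ 2) - (Real.pi * (2 * k + 1)) ^ 2| ≤ C)
    (hk : C ≤ (Real.pi * (2 * k + 1)) ^ 2) :
    R c ≤ 2 * (Real.pi * (2 * k + 1)) * (C / (Real.pi * (2 * k + 1))) ^ 2 := by
  set s := Real.log (1 + 1 / c ^ 2) with hs
  set a := Real.pi * (2 * k + 1) with ha
  have ha0 : 0 < a := by positivity
  have hs0 : 0 ≤ s := by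
    apply Real.log_nonneg
    have : 0 ≤ 1 / c ^ 2 := by positivity
    linarith
  have h1 : |√s - a| ≤ C / a := by
    have h2 : (√s - a) * (√s + a) = s - a ^ 2 := by
      have := Real.sq_sqrt hs0
      nlinarith
    have h3 : 0 < √s + a := by positivity
    rw [le_div_iff₀ ha0]
    calc |√s - a| * a ≤ |√s - a| * (√s + a) := by
          have := Real.sqrt_nonneg s
          gcongr
          linarith
      _ = |(√s - a) * (√s + a)| := by rw [abs_mul, abs_of_pos h3]
      _ = |s - a ^ 2| := by rw [h2]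
      _ ≤ C := hC
  have hcos : Real.cos √s = - Real.cos (√s - a) := by
    have : Real.cos √s = Real.cos ((√s - a) + Real.pi + k * (2 * Real.pi)) := by
      congr 1
      rw [ha]
      ring
    rw [this, Real.cos_add_nat_mul_two_pi, Real.cos_add_pi]
  have h2 : 1 + Real.cos √s ≤ (C / a) ^ 2 / 2 := by
    rw [hcos]
    have h3 := Real.one_sub_sq_div_two_le_cos (x := √s - a)
    have h4 : (√s - a) ^ 2 ≤ (C / a) ^ 2 := by
      rw [← sq_abs]
      gcongr
    linarith
  have hC0 : 0 ≤ C := (abs_nonneg _).trans hC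
  have h5 : √s ≤ 2 * a := by
    have h6 := (abs_le.1 h1).2
    have h7 : C / a ≤ a := by
      rw [div_le_iff₀ ha0]
      nlinarith
    linarith
  have h8 : 0 ≤ 1 + Real.cos √s := by
    have := Real.neg_one_le_cos √s
    linarith
  unfold R
  calc √s * (1 + Real.cos √s) ≤ (2 * a) * ((C / a) ^ 2 / 2) := by gcongr
    _ ≤ 2 * a * (C / a) ^ 2 := by
      have : 0 ≤ a * (C / a) ^ 2 := by positivity
      nlinarith

/-- lower bound near the good values -/
lemma R_large {c : ℝ} {k : ℕ} {C : ℝ} (hC : |Real.log (1 + 1 / c ^ 2) - (2 * Real.pi * k) ^ 2| ≤ C)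
    (hk0 : 0 < k) (hk : C ≤ 2 * Real.pi * k) : 2 * Real.pi * k - 1 ≤ 2 * R c := by
  set s := Real.log (1 + 1 / c ^ 2) with hs
  set a := 2 * Real.pi * k with ha
  have hk0' : (0 : ℝ) < k := by exact_mod_cast hk0
  have ha0 : 0 < a := by positivity
  have hs0 : 0 ≤ s := by
    apply Real.log_nonneg
    have : 0 ≤ 1 / c ^ 2 := by positivity
    linarith
  have h1 : |√s - a| ≤ 1 := by
    have h2 : (√s - a) * (√s + a) = s - a ^ 2 := by
      have := Real.sq_sqrt hs0
      nlinarith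
    have h3 : 0 < √s + a := by positivity
    have h4 : |√s - a| * a ≤ 1 * a := by
      calc |√s - a| * a ≤ |√s - a| * (√s + a) := by
            have := Real.sqrt_nonneg s
            gcongr
            linarith
        _ = |(√s - a) * (√s + a)| := by rw [abs_mul, abs_of_pos h3]
        _ = |s - a ^ 2| := by rw [h2]
        _ ≤ C := hC
        _ ≤ 1 * a := by linarith
    exact le_of_mul_le_mul_right h4 ha0
  have hcos : Real.cos √s = Real.cos (√s - a) := by
    have : Real.cos √s = Real.cos ((√s - a) + k * (2 * Real.pi)) := by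
      congr 1
      rw [ha]
      ring
    rw [this, Real.cos_add_nat_mul_two_pi]
  have h2 : 1 / 2 ≤ 1 + Real.cos √s := by
    rw [hcos]
    have h3 := Real.one_sub_sq_div_two_le_cos (x := √s - a)
    have h4 : (√s - a) ^ 2 ≤ 1 := by
      rw [← sq_abs]
      exact pow_le_one₀ (abs_nonneg _) h1
    linarith
  have h5 : a - 1 ≤ √s := by
    have := (abs_le.1 h1).1
    linarith
  unfold R
  have h6 := Real.sqrt_nonneg s
  nlinarith

/-- logarithm estimate -/
lemma log_est {c : ℝ} {n : ℕ} {lo hi : ℝ} (hlo : 0 < lo) (hlo1 : lo ≤ 1) (hhi : 1 ≤ hi)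
    (h1 : lo / 2 ^ n ≤ |c|) (h2 : |c| ≤ hi / 2 ^ n) :
    |Real.log (1 + 1 / c ^ 2) - 2 * n * Real.log 2| ≤ Real.log (1 + 1 / lo ^ 2) + 2 * Real.log hi := by
  have hc0 : 0 < |c| := lt_of_lt_of_le (by positivity) h1
  have hc2 : c ^ 2 = |c| ^ 2 := (sq_abs c).symm
  have hp : (0 : ℝ) < 2 ^ n := by positivity
  have h3 : Real.log ((2 : ℝ) ^ n) = n * Real.log 2 := Real.log_pow _ _
  have hlogh : 0 ≤ Real.log hi := Real.log_nonneg hhi
  have hlogl : 0 ≤ Real.log (1 + 1 / lo ^ 2) := Real.log_nonneg (by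
    have : 0 ≤ 1 / lo ^ 2 := by positivity
    linarith)
  rw [abs_le]
  constructor
  · have h4 : Real.log ((2 ^ n / hi) ^ 2) ≤ Real.log (1 + 1 / c ^ 2) := by
      apply Real.log_le_log (by positivity)
      have h5 : 2 ^ n / hi ≤ 1 / |c| := by
        rw [div_le_div_iff₀ (by linarith) hc0, one_mul]
        rw [le_div_iff₀ hp] at h2
        linarith
      have h6 : (2 ^ n / hi) ^ 2 ≤ (1 / |c|) ^ 2 := by gcongr
      rw [hc2]
      have h7 : (1 / |c|) ^ 2 = 1 / |c| ^ 2 := by rw [div_pow, one_pow]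
      rw [h7] at h6
      linarith
    rw [Real.log_pow, Real.log_div (by positivity) (by positivity), h3] at h4
    push_cast at h4
    nlinarith
  · have h4 : Real.log (1 + 1 / c ^ 2) ≤ Real.log ((1 + 1 / lo ^ 2) * (2 ^ n) ^ 2) := by
      apply Real.log_le_log (by positivity)
      have h5 : 1 / |c| ≤ 2 ^ n / lo := by
        rw [div_le_div_iff₀ hc0 hlo, one_mul]
        rw [div_le_iff₀ hp] at h1
        linarith
      have h6 : (1 / |c|) ^ 2 ≤ (2 ^ n / lo) ^ 2 := by gcongr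
      rw [hc2]
      have h9 : (1 / |c|) ^ 2 = 1 / |c| ^ 2 := by rw [div_pow, one_pow]
      rw [h9, div_pow] at h6
      have h7 : (1 : ℝ) ≤ (2 ^ n) ^ 2 := one_le_pow₀ (one_le_pow₀ (by norm_num))
      have h8 : (1 + 1 / lo ^ 2) * (2 ^ n) ^ 2 = (2 ^ n) ^ 2 + (2 ^ n) ^ 2 / lo ^ 2 := by
        field_simp
      rw [h8]
      linarith
    rw [Real.log_mul (by positivity) (by positivity), Real.log_pow, h3] at h4
    push_cast at h4
    linarith

end Pool.Agent.X187.WC
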