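import Pool.Agent.X187.WC.Sep

open Filter Topology
open scoped ContDiff Manifold

namespace Pool.Agent.X187.WC

variable {d : ℕ} {𝕂 : Type*} [RCLike 𝕂]

lemma exists_exhaustion (Ω : Set (EuclideanSpace ℝ (Fin d))) (hΩ : IsOpen Ω) :
    ∃ K : ℕ → Set (EuclideanSpace ℝ (Fin d)), (∀ j, IsCompact (K j)) ∧ (∀ j, K j ⊆ Ω) ∧
      (∀ j, K j ⊆ interior (K (j + 1))) ∧ ∀ L ⊆ Ω, IsCompact L → ∃ j, L ⊆ K j := by
  have hlc : LocallyCompactSpace Ω := hΩ.locallyCompactSpace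
  let C : CompactExhaustion Ω := default
  refine ⟨fun j => Subtype.val '' (C j), fun j => (C.isCompact j).image continuous_subtype_val,
    fun j => ?_, fun j => ?_, ?_⟩
  · rintro _ ⟨x, -, rfl⟩
    exact x.2
  · have h1 : Subtype.val '' (interior (C (j + 1))) ⊆ interior (Subtype.val '' (C (j + 1))) := by
      apply interior_maximal (Set.image_mono interior_subset)
      exact hΩ.isOpenMap_subtype_val _ isOpen_interior
    exact (Set.image_mono (C.subset_interior_succ j)).trans h1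
  · intro L hL hLc
    have h1 : IsCompact (Subtype.val ⁻¹' L : Set Ω) := by
      rw [Subtype.isCompact_iff]
      rwa [Subtype.image_preimage_coe, Set.inter_eq_right.2 hL]
    obtain ⟨j, hj⟩ := C.exists_superset_of_isCompact h1
    refine ⟨j, fun x hx => ⟨⟨x, hL hx⟩, hj hx, rfl⟩⟩

lemma iter_mapsTo {Ω : Set (EuclideanSpace ℝ (Fin d))}
    {F : EuclideanSpace ℝ (Fin d) → EuclideanSpace ℝ (Fin d)} (hm : Set.MapsTo F Ω Ω) (n : ℕ) :
    Set.MapsTo (F^[n]) Ω Ω := hm.iterate n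

lemma iter_smooth {Ω : Set (EuclideanSpace ℝ (Fin d))}
    {F : EuclideanSpace ℝ (Fin d) → EuclideanSpace ℝ (Fin d)} (hF : ContDiffOn ℝ ∞ F Ω)
    (hm : Set.MapsTo F Ω Ω) (n : ℕ) : ContDiffOn ℝ ∞ (F^[n]) Ω := by
  induction n with
  | zero => exact contDiffOn_id
  | succ n ih =>
    rw [Function.iterate_succ]
    exact ih.comp hF hm

lemma exists_cutoff {A B : Set (EuclideanSpace ℝ (Fin d))} (hA : IsClosed A) (hAB : A ⊆ interior B) :
    ∃ χ : EuclideanSpace ℝ (Fin d) → ℝ, ContDiff ℝ ∞ χ ∧ (∀ᶠ x in 𝓝ˢ A, χ x = 1) ∧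
      ∀ x ∉ B, χ x = 0 := by
  obtain ⟨f, h1, h2, -⟩ := exists_contMDiffMap_one_nhds_of_subset_interior
    (n := (⊤ : ℕ∞)) (𝓘(ℝ, EuclideanSpace ℝ (Fin d))) hA hAB
  exact ⟨f, contMDiff_iff_contDiff.1 f.contMDiff, h1, h2⟩

/-- Existence of hypercyclic functions for run-away diffeomorphisms. -/
theorem exists_hypercyclic (Ω : Set (EuclideanSpace ℝ (Fin d))) (hΩ : IsOpen Ω)
    (Ψ Φ : EuclideanSpace ℝ (Fin d) → EuclideanSpace ℝ (Fin d)) (hΦΨ : Function.LeftInverse Φ Ψ)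
    (hΨΦ : Function.RightInverse Φ Ψ)
    (hΨ : ContDiffOn ℝ ∞ Ψ Ω) (hΦ : ContDiffOn ℝ ∞ Φ Ω)
    (mΨ : Set.MapsTo Ψ Ω Ω) (mΦ : Set.MapsTo Φ Ω Ω)
    (hrun : ∀ L ⊆ Ω, IsCompact L → ∃ n : ℕ, Disjoint (Ψ^[n] '' L) L) :
    ∃ g : EuclideanSpace ℝ (Fin d) → 𝕂, ContDiffOn ℝ ∞ g Ω ∧
      ∀ f : EuclideanSpace ℝ (Fin d) → 𝕂, ContDiffOn ℝ ∞ f Ω → ∀ L ⊆ Ω, IsCompact L →
        ∀ (n : ℕ) (ε : ℝ), 0 < ε → ∃ m : ℕ, Close L n ε f (g ∘ Ψ^[m]) := by
  classical
  obtain ⟨K, hKc, hKΩ, hKi, hKex⟩ := exists_exhaustion Ω hΩ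
  have hKmono : Monotone K := monotone_nat_of_le_succ fun j => (hKi j).trans interior_subset
  obtain ⟨φ, hφ, hφd⟩ := exists_dense_seq (𝕂 := 𝕂) Ω hΩ K hKc hKΩ
  have himg : ∀ (n : ℕ) (L : Set (EuclideanSpace ℝ (Fin d))), L ⊆ Ω → IsCompact L →
      IsCompact (Ψ^[n] '' L) ∧ Ψ^[n] '' L ⊆ Ω := by
    intro n L hL hLc
    refine ⟨hLc.image_of_continuousOn ((iter_smooth hΨ mΨ n).continuousOn.mono hL), ?_⟩
    rintro _ ⟨x, hx, rfl⟩
    exact iter_mapsTo mΨ n (hL hx)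
  -- the recursive choice
  let S := {C : Set (EuclideanSpace ℝ (Fin d)) // IsCompact C ∧ C ⊆ Ω}
  have hex : ∀ (C : S) (j : ℕ), ∃ n : ℕ, Disjoint (Ψ^[n] '' (C.1 ∪ K (j + 1))) (C.1 ∪ K (j + 1)) :=
    fun C j => hrun _ (Set.union_subset C.2.2 (hKΩ _)) (C.2.1.union (hKc _))
  choose nn hnn using hex
  let C : ℕ → S := fun j => Nat.rec ⟨∅, isCompact_empty, Set.empty_subset _⟩
    (fun j C => ⟨C.1 ∪ Ψ^[nn C j] '' K (j + 1), C.2.1.union (himg _ _ (hKΩ _) (hKc _)).1,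
      Set.union_subset C.2.2 (himg _ _ (hKΩ _) (hKc _)).2⟩) j
  have hCs : ∀ j, (C (j + 1)).1 = (C j).1 ∪ Ψ^[nn (C j) j] '' K (j + 1) := fun j => rfl
  have hCmono : Monotone fun j => (C j).1 := monotone_nat_of_le_succ fun j => by
    rw [hCs]
    exact Set.subset_union_left
  set m : ℕ → ℕ := fun j => nn (C j) j with hm
  set A : ℕ → Set (EuclideanSpace ℝ (Fin d)) := fun j => Ψ^[m j] '' K (j + 1) with hA
  have hAK : ∀ j, Disjoint (A j) (K (j + 1)) := fun j =>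
    (hnn (C j) j).mono (Set.image_mono Set.subset_union_right) Set.subset_union_right
  have hAA : ∀ i j, i < j → Disjoint (A j) (A i) := by
    intro i j hij
    have h1 : A i ⊆ (C j).1 := by
      have h2 : A i ⊆ (C (i + 1)).1 := by
        rw [hCs]
        exact Set.subset_union_right
      exact h2.trans (hCmono hij)
    exact (hnn (C j) j).mono (Set.image_mono Set.subset_union_right)
      (h1.trans Set.subset_union_left)
  have hAA' : ∀ i j, i ≠ j → Disjoint (A j) (A i) := by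
    intro i j hij
    rcases lt_or_gt_of_ne hij with h | h
    · exact hAA i j h
    · exact (hAA j i h).symm
  -- cutoffs
  choose χ hχs hχ1 hχ0 using fun j => exists_cutoff (hKc j).isClosed (hKi j)
  set fs : ℕ → (EuclideanSpace ℝ (Fin d) → 𝕂) := fun j => φ (Nat.unpair j).1 with hfs
  set term : ℕ → (EuclideanSpace ℝ (Fin d) → 𝕂) := fun j x =>
    (χ j (Φ^[m j] x) : ℝ) • fs j (Φ^[m j] x) with hterm
  have hterm0 : ∀ j x, x ∉ A j → term j x = 0 := by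
    intro j x hx
    have h1 : Φ^[m j] x ∉ K (j + 1) := by
      intro h
      exact hx ⟨_, h, hΨΦ.iterate (m j) x⟩
    simp only [hterm]
    rw [hχ0 j _ h1, zero_smul]
  have hterms : ∀ j, ContDiffOn ℝ ∞ (term j) Ω := by
    intro j
    have h1 : ContDiffOn ℝ ∞ (fun x => χ j (Φ^[m j] x)) Ω :=
      (hχs j).comp_contDiffOn (iter_smooth hΦ mΦ (m j))
    have h2 : ContDiffOn ℝ ∞ (fun x => fs j (Φ^[m j] x)) Ω :=
      (hφ _).comp (iter_smooth hΦ mΦ (m j)) (iter_mapsTo mΦ (m j))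
    exact h1.smul h2
  set g : EuclideanSpace ℝ (Fin d) → 𝕂 := fun x => ∑' j, term j x with hg
  have hgK : ∀ j₀, ∀ x ∈ K (j₀ + 1), g x = ∑ j ∈ Finset.range j₀, term j x := by
    intro j₀ x hx
    apply tsum_eq_sum
    intro j hj
    rw [Finset.mem_range, not_lt] at hj
    apply hterm0
    intro hxA
    exact Set.disjoint_left.1 (hAK j) hxA (hKmono (by omega) hx)
  refine ⟨g, ?_, ?_⟩
  · intro x hx
    obtain ⟨j₀, hj₀⟩ := hKex {x} (Set.singleton_subset_iff.2 hx) isCompact_singleton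
    have h1 : x ∈ interior (K (j₀ + 1)) := hKi j₀ (hj₀ rfl)
    have h2 : g =ᶠ[𝓝 x] fun y => ∑ j ∈ Finset.range j₀, term j y := by
      filter_upwards [isOpen_interior.mem_nhds h1] with y hy
      exact hgK j₀ y (interior_subset hy)
    have h3 : ContDiffAt ℝ ∞ (fun y => ∑ j ∈ Finset.range j₀, term j y) x :=
      (ContDiffOn.sum fun j _ => hterms j).contDiffAt (hΩ.mem_nhds hx)
    exact (h3.congr_of_eventuallyEq h2).contDiffWithinAt
  · intro f hf L hL hLc n ε hε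
    obtain ⟨j₁, hj₁⟩ := hKex L hL hLc
    obtain ⟨i, hi⟩ := hφd f hf j₁ n ε hε
    set j := Nat.pair i j₁ with hj
    have hjj : j₁ ≤ j := Nat.right_le_pair i j₁
    have hfsj : fs j = φ i := by
      simp only [hfs, hj, Nat.unpair_pair]
    refine ⟨m j, ?_⟩
    have hev : ∀ x ∈ K j, g ∘ Ψ^[m j] =ᶠ[𝓝 x] φ i := by
      intro x hx
      have h1 : ∀ᶠ y in 𝓝 x, χ j y = 1 := (eventually_nhdsSet_iff_forall.1 (hχ1 j)) x hx
      filter_upwards [h1, isOpen_interior.mem_nhds (hKi j hx)] with y hy1 hy2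
      have hyA : Ψ^[m j] y ∈ A j := ⟨y, interior_subset hy2, rfl⟩
      have h2 : g (Ψ^[m j] y) = term j (Ψ^[m j] y) := by
        apply tsum_eq_single j
        intro i' hi'
        apply hterm0
        intro h
        exact Set.disjoint_left.1 (hAA' i' j hi') hyA h
      rw [Function.comp_apply, h2]
      simp only [hterm]
      rw [hΦΨ.iterate (m j) y, hy1, one_smul, hfsj]
    intro k hk x hx
    have h1 := (hev x (hKmono hjj (hj₁ hx))).iteratedFDeriv ℝ k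
    rw [h1.eq_of_nhds]
    exact hi k hk x (hj₁ hx)

end Pool.Agent.X187.WC
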