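import Pool.Agent.X187.WC.Gfun

open Filter Topology
open scoped ContDiff

namespace Pool.Agent.X187.WC

/-- three-dimensional space -/
abbrev E3 := EuclideanSpace ℝ (Fin 3)

/-- the map -/
noncomputable def Psi (v : E3) : E3 := !₂[2 * v 0, v 1 / 2, v 2 + G (v 0) (v 1)]

/-- its inverse -/
noncomputable def Phi (v : E3) : E3 := !₂[v 0 / 2, 2 * v 1, v 2 - G (v 0 / 2) (2 * v 1)]

/-- the domain -/
def Om : Set E3 := {v | (v 0, v 1) ≠ (0, 0)}

lemma isOpen_Om : IsOpen Om := by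
  have h : Continuous fun v : E3 => (v 0, v 1) := by fun_prop
  exact isOpen_ne_fun h continuous_const

lemma Phi_Psi : Function.LeftInverse Phi Psi := by
  intro v
  have h2 : ∀ a : ℝ, 2 * (a / 2) = a := fun a => by ring
  ext i
  fin_cases i <;> simp [Phi, Psi, h2]

lemma Psi_Phi : Function.RightInverse Phi Psi := by
  intro v
  have h2 : ∀ a : ℝ, 2 * (a / 2) = a := fun a => by ring
  ext i
  fin_cases i <;> simp [Phi, Psi, h2]

lemma mapsTo_Psi : Set.MapsTo Psi Om Om := by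
  intro v hv h
  apply hv
  simp only [Psi, Prod.mk.injEq] at h ⊢
  simpa using h

lemma mapsTo_Phi : Set.MapsTo Phi Om Om := by
  intro v hv h
  apply hv
  simp only [Phi, Prod.mk.injEq] at h ⊢
  simpa using h

lemma coord_smooth (v : E3) (i : Fin 3) : ContDiffAt ℝ ∞ (fun w : E3 => w i) v := by fun_prop

lemma G_comp_aux {a b : E3 → ℝ} {v : E3} (ha : ContDiffAt ℝ ∞ a v) (hb : ContDiffAt ℝ ∞ b v)
    (h : (a v, b v) ≠ (0, 0)) :
    ContDiffAt ℝ ∞ ((fun q : ℝ × ℝ => G q.1 q.2) ∘ (fun w : E3 => (a w, b w))) v :=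
  ContDiffAt.comp v (show ContDiffAt ℝ ∞ (fun q : ℝ × ℝ => G q.1 q.2)
    ((fun w : E3 => (a w, b w)) v) from G_contDiffAt h) (ha.prodMk hb)

lemma G_comp {a b : E3 → ℝ} {v : E3} (ha : ContDiffAt ℝ ∞ a v) (hb : ContDiffAt ℝ ∞ b v)
    (h : (a v, b v) ≠ (0, 0)) : ContDiffAt ℝ ∞ (fun w : E3 => G (a w) (b w)) v :=
  G_comp_aux ha hb h

lemma smooth_Psi : ContDiffOn ℝ ∞ Psi Om := by
  intro v hv
  apply ContDiffAt.contDiffWithinAt
  rw [contDiffAt_euclidean]
  have e0 : ContDiffAt ℝ ∞ (fun w : E3 => 2 * w 0) v := contDiffAt_const.mul (coord_smooth v 0)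
  have e1 : ContDiffAt ℝ ∞ (fun w : E3 => w 1 / 2) v := (coord_smooth v 1).div_const 2
  have hG : ContDiffAt ℝ ∞ (fun w : E3 => G (w 0) (w 1)) v :=
    G_comp (coord_smooth v 0) (coord_smooth v 1) hv
  have e2 : ContDiffAt ℝ ∞ (fun w : E3 => w 2 + G (w 0) (w 1)) v := (coord_smooth v 2).add hG
  have f0 : (fun w : E3 => (Psi w) 0) = fun w : E3 => 2 * w 0 := by
    funext w; simp [Psi]
  have f1 : (fun w : E3 => (Psi w) 1) = fun w : E3 => w 1 / 2 := by
    funext w; simp [Psi]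
  have f2 : (fun w : E3 => (Psi w) 2) = fun w : E3 => w 2 + G (w 0) (w 1) := by
    funext w; simp [Psi]
  intro i
  match i with
  | 0 => rw [f0]; exact e0
  | 1 => rw [f1]; exact e1
  | 2 => rw [f2]; exact e2

lemma smooth_Phi : ContDiffOn ℝ ∞ Phi Om := by
  intro v hv
  apply ContDiffAt.contDiffWithinAt
  rw [contDiffAt_euclidean]
  have hv' : (v 0 / 2, 2 * v 1) ≠ (0, 0) := by
    intro h
    apply hv
    simp only [Prod.mk.injEq] at h ⊢
    constructor
    · linarith [h.1]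
    · linarith [h.2]
  have e0 : ContDiffAt ℝ ∞ (fun w : E3 => w 0 / 2) v := (coord_smooth v 0).div_const 2
  have e1 : ContDiffAt ℝ ∞ (fun w : E3 => 2 * w 1) v := contDiffAt_const.mul (coord_smooth v 1)
  have hG : ContDiffAt ℝ ∞ (fun w : E3 => G (w 0 / 2) (2 * w 1)) v := G_comp e0 e1 hv'
  have e2 : ContDiffAt ℝ ∞ (fun w : E3 => w 2 - G (w 0 / 2) (2 * w 1)) v :=
    (coord_smooth v 2).sub hG
  have f0 : (fun w : E3 => (Phi w) 0) = fun w : E3 => w 0 / 2 := by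
    funext w; simp [Phi]
  have f1 : (fun w : E3 => (Phi w) 1) = fun w : E3 => 2 * w 1 := by
    funext w; simp [Phi]
  have f2 : (fun w : E3 => (Phi w) 2) = fun w : E3 => w 2 - G (w 0 / 2) (2 * w 1) := by
    funext w; simp [Phi]
  intro i
  match i with
  | 0 => rw [f0]; exact e0
  | 1 => rw [f1]; exact e1
  | 2 => rw [f2]; exact e2

lemma iter_Psi (n : ℕ) (v : E3) : Psi^[n] v =
    !₂[2 ^ n * v 0, v 1 / 2 ^ n, v 2 + ∑ i ∈ Finset.range n, G (2 ^ i * v 0) (v 1 / 2 ^ i)] := by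
  induction n with
  | zero =>
    ext i
    fin_cases i <;> simp
  | succ n ih =>
    rw [Function.iterate_succ_apply', ih]
    ext i
    fin_cases i
    · simp [Psi, pow_succ]; ring
    · simp [Psi, pow_succ, div_div]
    · simp [Psi, Finset.sum_range_succ]; ring

lemma G_full {x y : ℝ} (hx : x ≠ 0) (h1 : y ^ 2 ≤ 4 * x ^ 2) (h2 : x ^ 2 ≤ 4 * y ^ 2) :
    G x y = R (x * y) := by
  unfold G
  have h3 : 4 / 17 ≤ tt x y := by
    unfold tt
    rw [le_div_iff₀ (quart_pos (by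
      intro h
      exact hx (congrArg Prod.fst h)))]
    nlinarith [mul_nonneg (sub_nonneg.2 h1) (sub_nonneg.2 h2)]
  rw [Real.smoothTransition.one_of_one_le (by linarith), one_mul]

lemma G_le (x y : ℝ) : G x y ≤ R (x * y) := by
  unfold G
  have := Real.smoothTransition.le_one (10 * tt x y - 1)
  have h2 := R_nonneg (x * y)
  nlinarith

/-- lower bound for the total shift -/
lemma shift_lower {x y : ℝ} {n : ℕ} (hx : x ≠ 0) (h0 : 2 * |x| ≤ |y|)
    (hn : 2 * (|y| / 2 ^ n) ≤ 2 ^ n * |x|) :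
    R (x * y) ≤ ∑ i ∈ Finset.range (n + 1), G (2 ^ i * x) (y / 2 ^ i) := by
  classical
  have hx0 : 0 < |x| := abs_pos.2 hx
  -- least index
  have hex : ∃ i, |y| / 2 ^ i ≤ 2 * (2 ^ i * |x|) := ⟨n, by
    have : 0 ≤ |y| / 2 ^ n := by positivity
    have : 0 ≤ 2 ^ n * |x| := by positivity
    linarith⟩
  set i := Nat.find hex with hi
  have hi1 : |y| / 2 ^ i ≤ 2 * (2 ^ i * |x|) := Nat.find_spec hex
  have hin : i ≤ n := Nat.find_min' hex (by
    have : 0 ≤ |y| / 2 ^ n := by positivity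
    have : 0 ≤ 2 ^ n * |x| := by positivity
    linarith)
  have hi2 : 2 ^ i * |x| ≤ 2 * (|y| / 2 ^ i) := by
    rcases Nat.eq_zero_or_pos i with h | h
    · rw [h]
      simp only [pow_zero, one_mul, div_one]
      linarith
    · obtain ⟨j, hj⟩ : ∃ j, i = j + 1 := ⟨i - 1, by omega⟩
      have h1 : ¬ (|y| / 2 ^ j ≤ 2 * (2 ^ j * |x|)) := Nat.find_min hex (by omega)
      rw [not_le] at h1
      have h2 : 2 ^ i * |x| = 2 * (2 ^ j * |x|) := by rw [hj, pow_succ]; ring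
      have h3 : |y| / 2 ^ i = (|y| / 2 ^ j) / 2 := by rw [hj, pow_succ, div_div]
      rw [h2, h3]
      have h4 : 0 ≤ 2 ^ j * |x| := by positivity
      linarith
  have hG : G (2 ^ i * x) (y / 2 ^ i) = R (x * y) := by
    rw [G_full]
    · congr 1
      field_simp
    · positivity
    · have h3 : (|y| / 2 ^ i) ^ 2 ≤ (2 * (2 ^ i * |x|)) ^ 2 := by gcongr
      have h4 : (|y| / 2 ^ i) ^ 2 = (y / 2 ^ i) ^ 2 := by rw [div_pow, div_pow, sq_abs]
      have h5 : (2 * (2 ^ i * |x|)) ^ 2 = 4 * (2 ^ i * x) ^ 2 := by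
        rw [mul_pow, mul_pow, mul_pow, sq_abs]; norm_num
      rw [h4, h5] at h3
      exact h3
    · have h3 : (2 ^ i * |x|) ^ 2 ≤ (2 * (|y| / 2 ^ i)) ^ 2 := by gcongr
      have h4 : (2 * (|y| / 2 ^ i)) ^ 2 = 4 * (y / 2 ^ i) ^ 2 := by
        rw [mul_pow, div_pow, div_pow, sq_abs]; norm_num
      have h5 : (2 ^ i * |x|) ^ 2 = (2 ^ i * x) ^ 2 := by rw [mul_pow, mul_pow, sq_abs]
      rw [h4, h5] at h3
      exact h3
  rw [← hG]
  exact Finset.single_le_sum (f := fun i => G (2 ^ i * x) (y / 2 ^ i)) (fun i _ => G_nonneg _ _)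
    (Finset.mem_range.2 (by omega))

/-- upper bound for the total shift along the special orbit -/
lemma shift_upper (n : ℕ) :
    ∑ i ∈ Finset.range n, G (2 ^ i * (1 / 2 ^ n)) (1 / 2 ^ i) ≤ 2 * R (1 / 2 ^ n) := by
  classical
  have hterm : ∀ i, G (2 ^ i * (1 / 2 ^ n)) (1 / 2 ^ i) ≤ R (1 / 2 ^ n) := by
    intro i
    have h1 := G_le (2 ^ i * (1 / 2 ^ n)) (1 / 2 ^ i)
    have h2 : (2 : ℝ) ^ i * (1 / 2 ^ n) * (1 / 2 ^ i) = 1 / 2 ^ n := by
      field_simp
    rwa [h2] at h1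
  have hzero : ∀ i, i ≠ n / 2 → i ≠ (n + 1) / 2 → G (2 ^ i * (1 / 2 ^ n)) (1 / 2 ^ i) = 0 := by
    intro i hi1 hi2
    have ht : tt (2 ^ i * (1 / 2 ^ n)) (1 / 2 ^ i) ≤ 1 / 16 := by
      unfold tt
      have h2 : (2 : ℝ) ^ i * (1 / 2 ^ n) * (1 / 2 ^ i) = 1 / 2 ^ n := by
        field_simp
      rw [h2]
      rcases lt_or_ge (2 * i) n with h | h
      · -- 2 i + 2 ≤ n
        have h3 : 2 * i + 2 ≤ n := by omega
        rw [div_le_iff₀ (by positivity)]
        have h4 : ((1 : ℝ) / 2 ^ n) ^ 2 ≤ 1 / 16 * (1 / 2 ^ i) ^ 4 := by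
          have h5 : (1 : ℝ) / 2 ^ n ≤ 1 / 2 ^ (2 * i + 2) := by
            apply one_div_le_one_div_of_le (by positivity)
            exact pow_le_pow_right₀ (by norm_num) h3
          have h6 : ((1 : ℝ) / 2 ^ (2 * i + 2)) ^ 2 = 1 / 16 * (1 / 2 ^ i) ^ 4 := by
            rw [pow_add, pow_mul' (2 : ℝ) 2 i]
            field_simp
            ring
          rw [← h6]
          gcongr
        have h7 : (0 : ℝ) ≤ (2 ^ i * (1 / 2 ^ n)) ^ 4 := by positivity
        nlinarith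
      · have h3 : n + 2 ≤ 2 * i := by omega
        rw [div_le_iff₀ (by positivity)]
        have h4 : ((1 : ℝ) / 2 ^ n) ^ 2 ≤ 1 / 16 * (2 ^ i * (1 / 2 ^ n)) ^ 4 := by
          have h5 : (2 : ℝ) ^ (n + 2) ≤ 2 ^ (2 * i) := pow_le_pow_right₀ (by norm_num) h3
          have h6 : (2 ^ i * ((1 : ℝ) / 2 ^ n)) ^ 4 = (2 ^ (2 * i)) ^ 2 * (1 / 2 ^ n) ^ 4 := by
            rw [mul_pow, ← pow_mul, ← pow_mul]
            congr 2
            ring
          have h7 : ((2 : ℝ) ^ (n + 2)) ^ 2 ≤ (2 ^ (2 * i)) ^ 2 := by gcongr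
          have h8 : ((1 : ℝ) / 2 ^ n) ^ 2 = 1 / 16 * (((2 : ℝ) ^ (n + 2)) ^ 2 * (1 / 2 ^ n) ^ 4) := by
            rw [pow_add]
            field_simp
            ring
          rw [h6, h8]
          have h9 : (0 : ℝ) ≤ (1 / 2 ^ n) ^ 4 := by positivity
          nlinarith
        have h7 : (0 : ℝ) ≤ (1 / 2 ^ i) ^ 4 := by positivity
        nlinarith
    unfold G
    rw [Real.smoothTransition.zero_of_nonpos (by linarith), zero_mul]
  have hR := R_nonneg (1 / 2 ^ n)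
  calc ∑ i ∈ Finset.range n, G (2 ^ i * (1 / 2 ^ n)) (1 / 2 ^ i)
      ≤ ∑ i ∈ ({n / 2, (n + 1) / 2} : Finset ℕ), G (2 ^ i * (1 / 2 ^ n)) (1 / 2 ^ i) := by
        have h1 : ∑ i ∈ Finset.range n, G (2 ^ i * (1 / 2 ^ n)) (1 / 2 ^ i) =
            ∑ i ∈ (Finset.range n).filter (fun i => i ∈ ({n / 2, (n + 1) / 2} : Finset ℕ)),
              G (2 ^ i * (1 / 2 ^ n)) (1 / 2 ^ i) := by
          rw [Finset.sum_filter_of_ne]
          intro i _ hne
          by_contra hcon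
          simp only [Finset.mem_insert, Finset.mem_singleton, not_or] at hcon
          exact hne (hzero i hcon.1 hcon.2)
        rw [h1]
        apply Finset.sum_le_sum_of_subset_of_nonneg
        · intro i hi
          exact (Finset.mem_filter.1 hi).2
        · intro i _ _
          exact G_nonneg _ _
    _ ≤ ∑ i ∈ ({n / 2, (n + 1) / 2} : Finset ℕ), R (1 / 2 ^ n) := Finset.sum_le_sum fun i _ => hterm i
    _ ≤ 2 * R (1 / 2 ^ n) := by
      rw [Finset.sum_const, nsmul_eq_mul]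
      have : ((({n / 2, (n + 1) / 2} : Finset ℕ).card : ℕ) : ℝ) ≤ 2 := by
        exact_mod_cast Finset.card_le_two
      gcongr

end Pool.Agent.X187.WC
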