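import Mathlib

open Filter Topology
open scoped ContDiff

namespace Pool.Agent.X187.WC

/-- `f` and `g` are `ε`-close on `L` together with their derivatives up to order `n`. -/
def Close {d : ℕ} {𝕂 : Type*} [RCLike 𝕂] (L : Set (EuclideanSpace ℝ (Fin d))) (n : ℕ) (ε : ℝ)
    (f g : EuclideanSpace ℝ (Fin d) → 𝕂) : Prop :=
  ∀ k ≤ n, ∀ x ∈ L, ‖iteratedFDeriv ℝ k f x - iteratedFDeriv ℝ k g x‖ < ε

variable {d : ℕ} {𝕂 : Type*} [RCLike 𝕂]

instance fdim (k : ℕ) : FiniteDimensional ℝ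
    (ContinuousMultilinearMap ℝ (fun _ : Fin k => EuclideanSpace ℝ (Fin d)) 𝕂) := by
  have h2 : Module.Free ℝ 𝕂 := inferInstance
  have h3 : Module.Finite ℝ 𝕂 := inferInstance
  have h1 : FiniteDimensional ℝ (MultilinearMap ℝ (fun _ : Fin k => EuclideanSpace ℝ (Fin d)) 𝕂) :=
    Module.Finite.multilinearMap
  let φ : ContinuousMultilinearMap ℝ (fun _ : Fin k => EuclideanSpace ℝ (Fin d)) 𝕂 →ₗ[ℝ]
      MultilinearMap ℝ (fun _ : Fin k => EuclideanSpace ℝ (Fin d)) 𝕂 :=
    { toFun := fun f => f.toMultilinearMap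
      map_add' := fun f g => rfl
      map_smul' := fun c f => rfl }
  exact FiniteDimensional.of_injective φ ContinuousMultilinearMap.toMultilinearMap_injective

instance prop (k : ℕ) : ProperSpace
    (ContinuousMultilinearMap ℝ (fun _ : Fin k => EuclideanSpace ℝ (Fin d)) 𝕂) :=
  FiniteDimensional.proper ℝ _

/-- There is a sequence of smooth functions which is dense among the smooth functions on `Ω`. -/
lemma exists_dense_seq (Ω : Set (EuclideanSpace ℝ (Fin d))) (hΩ : IsOpen Ω)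
    (K : ℕ → Set (EuclideanSpace ℝ (Fin d))) (hK : ∀ j, IsCompact (K j)) (hKΩ : ∀ j, K j ⊆ Ω) :
    ∃ φ : ℕ → (EuclideanSpace ℝ (Fin d) → 𝕂), (∀ i, ContDiffOn ℝ ∞ (φ i) Ω) ∧
      ∀ f : EuclideanSpace ℝ (Fin d) → 𝕂, ContDiffOn ℝ ∞ f Ω → ∀ (j n : ℕ) (ε : ℝ), 0 < ε →
        ∃ i, Close (K j) n ε f (φ i) := by
  have hcs : ∀ j, CompactSpace (K j) := fun j => isCompact_iff_compactSpace.1 (hK j)
  set S := {f : EuclideanSpace ℝ (Fin d) → 𝕂 // ContDiffOn ℝ ∞ f Ω} with hS
  have hcont : ∀ (f : S) (p : ℕ × ℕ), Continuous fun x : K p.1 => iteratedFDeriv ℝ p.2 f.1 x := by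
    intro f p
    have h1 : ContinuousOn (iteratedFDeriv ℝ p.2 f.1) Ω := by
      have h2 := f.2.continuousOn_iteratedFDerivWithin (m := p.2) (by exact_mod_cast le_top)
        hΩ.uniqueDiffOn
      refine h2.congr fun x hx => ?_
      exact (iteratedFDerivWithin_of_isOpen p.2 hΩ hx).symm
    exact (h1.mono (hKΩ p.1)).domRestrict
  let Φ : S → (∀ p : ℕ × ℕ, C(K p.1, ContinuousMultilinearMap ℝ
      (fun _ : Fin p.2 => EuclideanSpace ℝ (Fin d)) 𝕂)) := fun f p => ⟨_, hcont f p⟩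
  let _ : TopologicalSpace S := TopologicalSpace.induced Φ inferInstance
  have hsc : SecondCountableTopology S := TopologicalSpace.secondCountableTopology_induced _ _ Φ
  have hne : Nonempty S := ⟨⟨fun _ => 0, contDiffOn_const⟩⟩
  refine ⟨fun i => (TopologicalSpace.denseSeq S i).1, fun i => (TopologicalSpace.denseSeq S i).2, ?_⟩
  intro f hf j n ε hε
  have hd := TopologicalSpace.denseRange_denseSeq S
  let V : Set S := ⋂ k ∈ Finset.range (n + 1), {g : S | dist (Φ g (j, k)) (Φ ⟨f, hf⟩ (j, k)) < ε}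
  have hV : IsOpen V := by
    apply isOpen_biInter_finset
    intro k _
    have hΦ : Continuous Φ := continuous_induced_dom
    exact isOpen_lt (((continuous_apply (j, k)).comp hΦ).dist continuous_const) continuous_const
  have hVn : V.Nonempty := ⟨⟨f, hf⟩, by
    simp only [V, Set.mem_iInter]
    intro k _
    simpa using hε⟩
  obtain ⟨g, hgV, ⟨i, rfl⟩⟩ := hd.inter_open_nonempty V hV hVn
  refine ⟨i, ?_⟩
  intro k hk x hx
  have h1 : dist (Φ (TopologicalSpace.denseSeq S i) (j, k)) (Φ ⟨f, hf⟩ (j, k)) < ε := by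
    have := Set.mem_iInter₂.1 hgV k (Finset.mem_range.2 (by omega))
    exact this
  have h2 := ContinuousMap.dist_apply_le_dist (f := Φ (TopologicalSpace.denseSeq S i) (j, k))
    (g := Φ ⟨f, hf⟩ (j, k)) ⟨x, hx⟩
  have h3 := lt_of_le_of_lt h2 h1
  rw [dist_comm, dist_eq_norm] at h3
  exact h3

end Pool.Agent.X187.WC
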